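import Pool.Agent.Helper78.LD.Glue
import Pool.Agent.Helper78.LD.Stat

/-!
L-SHAPED CORRIDOR, part [D]: (N), fusion of two rows with the parameters `y`, `y + π/3` at the end of the right leg
(helper72).  General tools: `n_De_two_In`, `n_De_two_row`, `n_slide'`, `n_row_slide`, `n_rows_In`, `n_Lv_congr`.
-/

namespace LD
open IP Finset Real

/-! ### general tools -/

theorem n_De_two (v : M) : De 2 v = De 0 (E 1 (E 2 v)) := by
  rw [De_E_succ, De_E_succ]

/-- an arc to the right of the left wall -/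
theorem n_De_two_In {p : ℕ} (h : 2 ≤ p) (v : M) : De 2 (In (p + 2) v) = In p (De 2 v) := by
  rw [n_De_two, E_In_lt (by omega), E_In_lt (by omega), De_zero_In, ← n_De_two]

/-- the left cap and a row -/
theorem n_De_two_row {off : ℕ} (h : 2 ≤ off) (b : ℕ → ℝ) (k : ℕ) (v : M) :
    De 2 (row (off + 2) b k v) = row off b k (De 2 v) := by
  induction k generalizing v with
  | zero => rfl
  | succ k ih =>
    rw [row_succ, row_succ, ih, show off + 2 + k = off + k + 2 by ring, De_Rt_gt (by omega)]

/-- a bent strand -/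
theorem n_De_In_succ (i : ℕ) (v : M) : De i (In (i + 1) v) = v := by
  rw [← De_E, E_In_succ, De_In]

/-- the mirror image of `slide`: an arc passes through a strand from the right to the left -/
theorem n_slide' (i : ℕ) (u : ℝ) (v : M) :
    Rt (i + 1) (u - π / 3) (Rt i u (In (i + 1) v)) = (s u * s (u - π / 3)) • In i v := by
  rw [Rt_apply, Rt_apply, E_In_succ, map_add, map_smul, map_smul, E_In, E_succ_In, smul_add, smul_add,
    smul_smul, smul_smul, smul_smul, smul_smul]
  have e1 : s (-(u - π / 3)) * Real.sin u + 0 = s u * s (u - π / 3) := by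
    unfold s
    rw [show π / 3 + -(u - π / 3) = π - (π / 3 + u) by ring, Real.sin_pi_sub,
      show π / 3 + (u - π / 3) = u by ring]
    ring
  have e2 : s (-(u - π / 3)) * s (-u) + Real.sin (u - π / 3) * s (-u) + Real.sin (u - π / 3) * Real.sin u = 0 := by
    unfold s
    rw [show π / 3 + -(u - π / 3) = π - (π / 3 + u) by ring, Real.sin_pi_sub,
      show π / 3 + -u = -(u - π / 3) by ring, Real.sin_neg]
    have h : Real.sin (π / 3 + u) + Real.sin (u - π / 3) = Real.sin u := by
      rw [Real.sin_add, Real.sin_sub, Real.cos_pi_div_three]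
      ring
    linear_combination (-Real.sin (u - π / 3)) * h
  rw [← e1, add_zero]
  have e3 : (s (-(u - π / 3)) * s (-u)) • In (i + 1) v + (Real.sin (u - π / 3) * s (-u)) • In (i + 1) v +
      (Real.sin (u - π / 3) * Real.sin u) • In (i + 1) v = 0 := by
    rw [← add_smul, ← add_smul, e2, zero_smul]
  rw [← sub_eq_zero, ← e3]
  module

/-- an arc passes through two rows from the right to the left -/
theorem n_row_slide (off : ℕ) (c : ℕ → ℝ) (n : ℕ) (v : M) :
    row (off + 1) (fun j => c j - π / 3) n (row off c n (In (off + n) v)) =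
      (∏ j ∈ range n, s (c j + π / 6) * s (c j - π / 6)) • In off v := by
  induction n with
  | zero => simp [row_zero]
  | succ n ih =>
    rw [row_succ, row_succ, Rt_row_right off c n (by omega : off + n + 1 ≤ off + 1 + n),
      show off + 1 + n = off + n + 1 by ring, show off + (n + 1) = off + n + 1 by ring,
      show c n - π / 3 + π / 6 = c n + π / 6 - π / 3 by ring, n_slide', map_smul, map_smul, ih, smul_smul,
      prod_range_succ, mul_comm, show c n + π / 6 - π / 3 = c n - π / 6 by ring]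

/-- an arc to the right of a double row -/
theorem n_DR_In (n : ℕ) (b : ℕ → ℝ) (p q : ℝ) {r : ℕ} (h : n + 2 ≤ r) (v : M) :
    DR n b p q (In (r + 2) v) = In r (DR n b p q v) := by
  unfold DR
  simp only [LinearMap.comp_apply]
  rw [row_In_right 2 _ n (by omega), row_In_right 3 _ n (by omega), n_De_two_In (by omega)]

theorem n_rows_In (n : ℕ) (b β : ℕ → ℝ) (k : ℕ) {r : ℕ} (h : n + 2 ≤ r) (v : M) :
    rows n b β k (In (r + 2 * k) v) = In r (rows n b β k v) := by
  induction k generalizing r with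
  | zero => rfl
  | succ k ih =>
    change DR n b (β (2 * k)) (β (2 * k + 1)) (rows n b β k (In (r + 2 * (k + 1)) v)) =
      In r (DR n b (β (2 * k)) (β (2 * k + 1)) (rows n b β k v))
    rw [show r + 2 * (k + 1) = (r + 2) + 2 * k by ring, ih (by omega), n_DR_In n b _ _ h]

theorem n_DR_congr {n : ℕ} {b b' : ℕ → ℝ} (h : ∀ j < n, b j = b' j) (p q : ℝ) : DR n b p q = DR n b' p q := by
  unfold DR
  rw [row_congr 3 n (b := fun j => b j - q) (b' := fun j => b' j - q) (fun j hj => by rw [h j hj]),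
    row_congr 2 n (b := fun j => b j - p) (b' := fun j => b' j - p) (fun j hj => by rw [h j hj])]

theorem n_rows_congr {n : ℕ} {b b' β β' : ℕ → ℝ} {k : ℕ} (h : ∀ j < n, b j = b' j) (h' : ∀ j < 2 * k, β j = β' j) :
    rows n b β k = rows n b' β' k := by
  induction k with
  | zero => rfl
  | succ k ih =>
    change DR n b (β (2 * k)) (β (2 * k + 1)) ∘ₗ rows n b β k = DR n b' (β' (2 * k)) (β' (2 * k + 1)) ∘ₗ rows n b' β' k
    rw [ih (fun j hj => h' j (by omega)), h' _ (by omega), h' _ (by omega), n_DR_congr h]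

theorem n_V_congr {n : ℕ} {b b' : ℕ → ℝ} (h : ∀ j < 2 * n + 1, b j = b' j) : V n b = V n b' := by
  ext σ
  exact (V_Sep n σ).2 b b' h

theorem n_Lv_apply (m k : ℕ) (b β : ℕ → ℝ) : Lv m k b β =
    caps m (row 2 (fun j => b j - β (2 * k)) (2 * m) (rows (2 * m) b β k (J m (V m b) (V k β)))) := rfl

theorem n_Lv_congr {m k : ℕ} {b b' β β' : ℕ → ℝ} (h : ∀ j < 2 * m + 1, b j = b' j) (h' : ∀ j < 2 * k + 1, β j = β' j) :
    Lv m k b β = Lv m k b' β' := by
  rw [n_Lv_apply, n_Lv_apply, n_V_congr h, n_V_congr h', h' (2 * k) (by omega),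
    n_rows_congr (n := 2 * m) (fun j hj => h j (by omega)) (fun j hj => h' j (by omega)),
    row_congr 2 (2 * m) (b := fun j => b j - β' (2 * k)) (b' := fun j => b' j - β' (2 * k))
      (fun j hj => by rw [h j (by omega)])]

theorem n_rem_ap3 (k : ℕ) (β : ℕ → ℝ) (p q r : ℝ) {j : ℕ} (h : j < 2 * k + 1) :
    rem (2 * k + 1) (ap3 (2 * k) β p q r) j = ap1 (2 * k) β p j := by
  unfold rem ap3 ap1
  rw [if_pos h]
  by_cases h1 : j < 2 * k
  · rw [if_pos h1, if_pos h1]
  · rw [if_neg h1, if_neg h1, if_pos (by omega)]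

/-- (N) -/
theorem nn : StN := by
  intro m k b β y
  set β' := ap3 (2 * k) β (-y) y (y + π / 3) with hβ'
  have h0 : ∀ j < 2 * k, β' j = ap1 (2 * k) β (-y) j := by
    intro j hj
    rw [hβ']
    unfold ap3 ap1
    rw [if_pos hj, if_pos hj]
  have h1 : β' (2 * k) = -y := by
    rw [hβ']
    unfold ap3
    rw [if_neg (by omega), if_pos rfl]
  have h2 : β' (2 * k + 1) = y := by
    rw [hβ']
    unfold ap3
    rw [if_neg (by omega), if_neg (by omega), if_pos rfl]
  have h3 : β' (2 * k + 2) = y + π / 3 := by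
    rw [hβ']
    unfold ap3
    rw [if_neg (by omega), if_neg (by omega), if_neg (by omega)]
  have h4 : ap1 (2 * k) β (-y) (2 * k) = -y := by
    unfold ap1
    rw [if_neg (by omega)]
  have hV : V (k + 1) β' = K (k + 1) (2 * k + 1) β' • In (2 * k + 1) (V k (ap1 (2 * k) β (-y))) := by
    rw [V_rec (n := k) (i := 2 * k + 1) (by omega) β' (by rw [h2, h3]),
      n_V_congr (fun j hj => n_rem_ap3 k β (-y) y (y + π / 3) hj)]
  rw [n_Lv_apply, n_Lv_apply, hV, map_smul, map_smul, map_smul, map_smul, mul_smul]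
  congr 1
  rw [J_In_right, show 2 * k + 1 + (2 * m + 2) = (2 * m + 1) + 2 * (k + 1) by ring]
  change caps m (row 2 (fun j => b j - β' (2 * (k + 1))) (2 * m) (DR (2 * m) b (β' (2 * k)) (β' (2 * k + 1))
    (rows (2 * m) b β' k (In (2 * m + 1 + 2 * (k + 1)) (J m (V m b) (V k (ap1 (2 * k) β (-y)))))))) = _
  rw [show 2 * m + 1 + 2 * (k + 1) = (2 * m + 3) + 2 * k by ring, n_rows_In _ _ _ _ (by omega),
    n_rows_congr (n := 2 * m) (b := b) (b' := b) (fun j _ => rfl) h0, show 2 * (k + 1) = 2 * k + 2 by ring, h1, h2, h3]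
  set w := rows (2 * m) b (ap1 (2 * k) β (-y)) k (J m (V m b) (V k (ap1 (2 * k) β (-y))))
  unfold DR
  simp only [LinearMap.comp_apply]
  rw [row_In_right 2 _ _ (by omega), ← n_De_two_row (le_refl 2), show 2 * m + 3 = 3 + 2 * m by ring,
    show (fun j => b j - (y + π / 3)) = fun j => (fun j => b j - y) j - π / 3 by funext j; ring,
    n_row_slide 3 (fun j => b j - y) (2 * m), map_smul, map_smul, n_De_In_succ]
  congr 1
  rw [h4]
end LD
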