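import Pool.Agent.Helper78.LD.Push
import Pool.Agent.Helper78.LD.Stat
import Pool.Agent.Helper72.LD.N

/-!
L-SHAPED CORRIDOR, part [D]: (S), first part (helper72).  The last row has the parameter `x + π/6`, the last three strands
of the lower leg are `x, -x, -x + π/3`.  The tile (last row, column `x`) is the identity; the rows slide off the column
`-x` by the crossing relation (`s_unzip`), which gives the sequence `-(x+π/6), β 0, ..` on the right leg; the column `x`
becomes the last row and moves to the left (`s_rows_mv`, `s_row_V`).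
-/

namespace LD
open IP Finset Real

/-! ### moving one parameter -/

/-- insert `a` at the position `r` -/
def s_mv (r : ℕ) (a : ℝ) (b : ℕ → ℝ) : ℕ → ℝ := fun j => if j < r then b j else if j = r then a else b (j - 1)

theorem s_mv_zero (a : ℝ) (b : ℕ → ℝ) : s_mv 0 a b = cons a b := by
  funext j
  unfold s_mv cons
  rw [if_neg (by omega)]

theorem s_mv_last {r j : ℕ} (h : j < r + 1) (a : ℝ) (b : ℕ → ℝ) : s_mv r a b j = ap1 r b a j := by
  unfold s_mv ap1
  by_cases h1 : j < r
  · rw [if_pos h1, if_pos h1]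
  · rw [if_neg h1, if_neg h1, if_pos (by omega)]

theorem s_mv_left (r : ℕ) (a : ℝ) (b : ℕ → ℝ) : s_mv (r + 1) a b r = b r := by
  unfold s_mv
  rw [if_pos (by omega)]

theorem s_mv_right (r : ℕ) (a : ℝ) (b : ℕ → ℝ) : s_mv (r + 1) a b (r + 1) = a := by
  unfold s_mv
  rw [if_neg (by omega), if_pos rfl]

theorem s_sw_mv (r : ℕ) (a : ℝ) (b : ℕ → ℝ) : sw r (s_mv (r + 1) a b) = s_mv r a b := by
  funext j
  rcases eq_or_ne j r with h | h
  · subst h
    rw [sw_left, s_mv_right]
    unfold s_mv
    rw [if_neg (by omega), if_pos rfl]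
  · rcases eq_or_ne j (r + 1) with h2 | h2
    · subst h2
      rw [sw_right, s_mv_left]
      unfold s_mv
      rw [if_neg (by omega), if_neg (by omega)]
      rfl
    · rw [sw_of_ne _ h h2]
      unfold s_mv
      by_cases h3 : j < r
      · rw [if_pos (by omega), if_pos h3]
      · rw [if_neg (by omega), if_neg h2, if_neg h3, if_neg h]

theorem s_row_V (n : ℕ) (a : ℝ) (b : ℕ → ℝ) (r : ℕ) (h : r ≤ 2 * n) :
    row 0 (fun j => b j - a - π / 6) r (V n (s_mv r a b)) = (∏ j ∈ range r, s (b j - a)) • V n (cons a b) := by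
  induction r with
  | zero => rw [s_mv_zero]; simp [row_zero]
  | succ r ih =>
    have h1 := V_sw (n := n) (i := r) (by omega) (s_mv (r + 1) a b)
    rw [s_mv_left, s_mv_right, s_sw_mv] at h1
    rw [row_succ, show 0 + r = r by omega, show b r - a - π / 6 + π / 6 = b r - a by ring, ← h1, map_smul,
      ih (by omega), smul_smul, prod_range_succ, mul_comm]

theorem s_rows_mv (n : ℕ) (a : ℝ) (b β : ℕ → ℝ) (k r : ℕ) (h : r + 1 ≤ n) (v : M) :
    row 2 (fun j => b j - a - π / 6) r (rows n (s_mv r a b) β k v) =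
      rows n (cons a b) β k (row 2 (fun j => b j - a - π / 6) r v) := by
  induction r generalizing v with
  | zero => rw [s_mv_zero]; rfl
  | succ r ih =>
    have h1 := rows_col n r (by omega) (s_mv (r + 1) a b) β k v
    rw [s_mv_left, s_mv_right, s_sw_mv] at h1
    rw [row_succ, row_succ, show b r - a - π / 6 + π / 6 = b r - a by ring, ← h1, ih (by omega)]

/-! ### unzipping -/

/-- crossing relation -/
theorem s_cross (i : ℕ) (u : ℝ) (v : M) : De (i + 1) (Rt i u v) = De i (Rt (i + 1) (π / 3 - u) v) := by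
  rw [Rt_apply, Rt_apply, map_add, map_add, map_smul, map_smul, map_smul, map_smul, De_succ_E, De_E_succ, add_comm]
  congr 1
  · congr 1
    unfold s
    congr 1
    ring

theorem s_Rt_rows (n : ℕ) (b β : ℕ → ℝ) (k : ℕ) {j : ℕ} (h : n + 2 ≤ j) (u : ℝ) (v : M) :
    Rt j u (rows n b β k v) = rows n b β k (Rt (j + 2 * k) u v) := by
  induction k generalizing j with
  | zero => rfl
  | succ k ih =>
    rw [rows_succ, rows_succ, show j + 2 * (k + 1) = (j + 2) + 2 * k by ring, ← ih (by omega), DR_apply, DR_apply,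
      ← Rt_row_right 2 _ n (by omega), ← Rt_row_right 3 _ n (by omega), De_Rt_gt (by omega)]

theorem s_unzip_DR (n : ℕ) (b : ℕ → ℝ) (p q : ℝ) (v : M) :
    De (n + 2) (DR (n + 1) b p q v) =
      DR n b p q (De (n + 2) (Rt (n + 3) (p - b n + π / 6) (Rt (n + 4) (q - b n + π / 6) v))) := by
  rw [DR_apply, DR_apply, ← De_De (i := 2) (j := n + 2) (by omega), row_succ, row_succ,
    De_row_lt 3 _ n (by omega), show 3 + n = n + 3 by ring, s_cross (n + 3), show 2 + n = n + 2 by ring,
    show n + 3 + 1 = n + 4 by ring, Rt_row_right 2 _ n (by omega), De_row_lt 2 _ n (by omega),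
    ← Rt_comm (by omega : n + 2 + 2 ≤ n + 4), s_cross (n + 2)]
  rw [show π / 3 - (b n - p + π / 6) = p - b n + π / 6 by ring,
    show π / 3 - (b n - q + π / 6) = q - b n + π / 6 by ring]

theorem s_unzip (n : ℕ) (b β : ℕ → ℝ) (k : ℕ) (v : M) :
    De (n + 2) (rows (n + 1) b β k v) =
      rows n b β k (De (n + 2) (row (n + 3) (fun r => β r - b n) (2 * k) v)) := by
  induction k generalizing v with
  | zero => rfl
  | succ k ih =>
    rw [rows_succ, s_unzip_DR, s_Rt_rows (n + 1) b β k (by omega), s_Rt_rows (n + 1) b β k (by omega), ih, rows_succ,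
      show 2 * (k + 1) = 2 * k + 1 + 1 by ring, row_succ, row_succ, show n + 3 + (2 * k + 1) = n + 4 + 2 * k by ring]

theorem s_row_J_left (m n : ℕ) (h : n + 1 ≤ 2 * m) (f : ℕ → ℝ) (v w : M) :
    row 2 f n (J m v w) = J m (row 0 f n v) w := by
  induction n generalizing v with
  | zero => rfl
  | succ n ih =>
    rw [row_succ, row_succ, show 0 + n = n by omega, ← ih (by omega), J_Rt_left (by omega), show n + 2 = 2 + n by ring]

theorem s_row_J_right (m n : ℕ) (f : ℕ → ℝ) (v w : M) :
    row (2 * m + 2) f n (J m v w) = J m v (row 0 f n w) := by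
  induction n generalizing w with
  | zero => rfl
  | succ n ih =>
    rw [row_succ, row_succ, show 0 + n = n by omega, ← ih, J_Rt_right, show n + (2 * m + 2) = 2 * m + 2 + n by ring]

/-- the last strand of the right leg changes its sign -/
theorem s_V_ng (k : ℕ) (β : ℕ → ℝ) (a : ℝ) : V k (ap1 (2 * k) β a) = V k (s_mv (2 * k) (-a) β) := by
  rw [← V_ngR k (s_mv (2 * k) (-a) β)]
  apply n_V_congr
  intro j hj
  unfold ng
  by_cases h : j = 2 * k
  · subst h
    rw [Function.update_self]
    unfold ap1 s_mv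
    rw [if_neg (by omega), if_neg (by omega), if_pos rfl, neg_neg]
  · rw [Function.update_of_ne h]
    unfold ap1 s_mv
    rw [if_pos (by omega), if_pos (by omega)]

/-- (S), first part -/
theorem s1 : StS1 := by
  intro m k b β x
  set b' := ap3 (2 * m) b x (-x) (-x + π / 3) with hb'
  have h0 : ∀ j < 2 * m, b' j = b j := by
    intro j hj
    rw [hb']
    unfold ap3
    rw [if_pos hj]
  have h1 : b' (2 * m) = x := by
    rw [hb']
    unfold ap3
    rw [if_neg (by omega), if_pos rfl]
  have h2 : b' (2 * m + 1) = -x := by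
    rw [hb']
    unfold ap3
    rw [if_neg (by omega), if_neg (by omega), if_pos rfl]
  have h3 : b' (2 * m + 2) = -x + π / 3 := by
    rw [hb']
    unfold ap3
    rw [if_neg (by omega), if_neg (by omega), if_neg (by omega)]
  have h4 : ∀ j < 2 * m + 1, b' j = s_mv (2 * m) x b j := by
    intro j hj
    rw [s_mv_last hj]
    unfold ap1
    by_cases h : j < 2 * m
    · rw [if_pos h, h0 j h]
    · rw [if_neg h, ← h1]
      congr 1
      omega
  set β' := ap1 (2 * k) β (x + π / 6) with hβ'
  have h5 : ∀ j < 2 * k, β' j = β j := by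
    intro j hj
    rw [hβ']
    unfold ap1
    rw [if_pos hj]
  have h6 : β' (2 * k) = x + π / 6 := by
    rw [hβ']
    unfold ap1
    rw [if_neg (by omega)]
  have hV : V (m + 1) b' = K (m + 1) (2 * m + 1) b' • In (2 * m + 1) (V m (s_mv (2 * m) x b)) := by
    rw [V_rec (n := m) (i := 2 * m + 1) (by omega) b' (by rw [h2, h3]), n_V_congr (fun j hj => ?_)]
    rw [n_rem_ap3 m b x (-x) (-x + π / 3) hj, s_mv_last hj]
  rw [n_Lv_apply, hV, In_wall (V_Sup m _), map_smul, LinearMap.smul_apply, map_smul, map_smul, map_smul]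
  set w := J (m + 1) (V m (s_mv (2 * m) x b)) (V k β') with hw
  -- the last row
  have hrow : ∀ v : M, caps (m + 1) (row 2 (fun j => b' j - β' (2 * k)) (2 * (m + 1)) v) =
      (s 0 * s (-(2 * x))) • caps m (row 2 (fun j => b j - x - π / 6) (2 * m) (De (2 * m + 3) v)) := by
    intro v
    rw [show 2 * (m + 1) = 2 * m + 1 + 1 by ring, row_succ, row_succ]
    simp only [h1, h2, h6]
    rw [show x - (x + π / 6) + π / 6 = 0 by ring, show -x - (x + π / 6) + π / 6 = -(2 * x) by ring]
    have e0 : ∀ z : M, Rt (2 + 2 * m) 0 z = s 0 • z := by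
      intro z
      rw [Rt_apply, Real.sin_zero, zero_smul, add_zero, neg_zero]
    rw [e0, map_smul, map_smul, caps_succ', De_row_lt 2 _ (2 * m) (by omega),
      show 2 + (2 * m + 1) = 2 * m + 3 by ring, Rt_apply, map_add, map_smul, map_smul, De_E, ← add_smul, map_smul,
      map_smul, smul_smul]
    congr 1
    · congr 1
      linarith [s_zero_sub (-(2 * x))]
    · congr 1
      rw [row_congr 2 (2 * m) (b := fun j => b' j - (x + π / 6)) (b' := fun j => b j - x - π / 6)
        (fun j hj => by rw [h0 j hj]; ring)]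
  rw [hrow, show 2 * (m + 1) = (2 * m + 1) + 1 by ring, show 2 * m + 3 = (2 * m + 1) + 2 by ring, s_unzip,
    show 2 * m + 1 + 3 = 2 * (m + 1) + 2 by ring, hw, s_row_J_right,
    row_congr 0 (2 * k) (b := fun r => β' r - b' (2 * m + 1)) (b' := fun r => β r - (-(x + π / 6)) - π / 6)
      (fun j hj => by rw [h5 j hj, h2]; ring), hβ', s_V_ng k β (x + π / 6), s_row_V k (-(x + π / 6)) β (2 * k) le_rfl,
    ← hβ', rows_congr (2 * m + 1) k h4 h5, s_rows_mv (2 * m + 1) x b β k (2 * m) le_rfl, map_smul, map_smul, map_smul,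
    ← De_row_lt 2 _ (2 * m) (by omega), s_row_J_left (m + 1) (2 * m) (by omega), s_row_V m x b (2 * m) le_rfl]
  simp only [map_smul, LinearMap.smul_apply, smul_smul]
  have hr : ∀ r, s (β r - (-(x + π / 6))) = s (-x - β r + π / 6) := by
    intro r
    unfold s
    rw [← Real.sin_pi_sub]
    congr 1
    ring
  simp only [hr]
  unfold Lw
  congr 1
  ring
end LD
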